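import Mathlib

set_option autoImplicit false

/-!
# Numbers of surjections from the `p`-part of a finite abelian group
-/

namespace Pool.Agent.Q100.HM

/-- The `p`-primary part of a commutative group (for finite groups: the Sylow `p`-subgroup). -/
def PPart (p : ℕ) (A : Type*) [CommGroup A] : Subgroup A :=
  Subgroup.closure {g : A | ∃ n : ℕ, g ^ (p ^ n) = 1}

/-- The number of surjective homomorphisms from the `p`-primary part of `A` to `H`. -/
noncomputable def surP (p : ℕ) (A H : Type*) [CommGroup A] [CommGroup H] : ℕ :=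
  Nat.card {f : PPart p A →* H // Function.Surjective f}

/-- The number of elements killed by `l`. -/
noncomputable def tor (A : Type*) [CommGroup A] (l : ℕ) : ℕ := Nat.card {c : A // c ^ l = 1}

lemma tor_subgroup {A : Type*} [CommGroup A] [Finite A] (B : Subgroup A) (l : ℕ) :
    tor B l ≤ tor A l := by
  unfold tor
  refine Nat.card_le_card_of_injective
    (fun c : {c : B // c ^ l = 1} => (⟨(c.1 : A), ?_⟩ : {c : A // c ^ l = 1})) ?_
  · have := congrArg (Subtype.val) c.2
    simpa using this
  · intro c d h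
    have : (c.1 : A) = (d.1 : A) := congrArg (fun z : {c : A // c ^ l = 1} => z.1) h
    exact Subtype.ext (Subtype.ext this)

lemma card_hom_zmod (B : Type*) [CommGroup B] [Finite B] (m : ℕ) [NeZero m] :
    Nat.card (B →* Multiplicative (ZMod m)) ≤ tor B m := by
  classical
  obtain ⟨e⟩ := CommGroup.monoidHom_mulEquiv_of_hasEnoughRootsOfUnity B ℂ
  have h0 : Function.Injective (ZMod.stdAddChar (N := m)) := ZMod.injective_stdAddChar
  -- the embedding of `Multiplicative (ZMod m)` in `ℂˣ`
  let j : Multiplicative (ZMod m) →* ℂˣ := (AddChar.toMonoidHom (ZMod.stdAddChar (N := m))).toHomUnits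
  have hj : Function.Injective j := by
    intro x y hxy
    have h1 := congrArg (fun u : ℂˣ => (u : ℂ)) hxy
    have h2 : ZMod.stdAddChar (N := m) (Multiplicative.toAdd x) =
        ZMod.stdAddChar (N := m) (Multiplicative.toAdd y) := h1
    exact Multiplicative.toAdd.injective (h0 h2)
  unfold tor
  refine Nat.card_le_card_of_injective
    (fun f : B →* Multiplicative (ZMod m) =>
      (⟨e (j.comp f), ?_⟩ : {c : B // c ^ m = 1})) ?_
  · rw [← map_pow]
    have : (j.comp f) ^ m = 1 := by
      ext b
      simp only [MonoidHom.pow_apply, MonoidHom.comp_apply, MonoidHom.one_apply]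
      rw [← map_pow]
      have h3 : (f b) ^ m = 1 := by
        apply Multiplicative.toAdd.injective
        rw [toAdd_pow, toAdd_one, nsmul_eq_mul, CharP.cast_eq_zero, zero_mul]
      rw [h3, map_one]
    rw [this, map_one]
  · intro f g h
    have h1 := e.injective (congrArg Subtype.val h)
    ext b
    exact hj (DFunLike.congr_fun h1 b)

/-- `#Sur(A[p^∞], H) ≤ ∏ #A[m_i]` for `H` isomorphic to the product of the `ℤ/m_i`. -/
lemma surP_le (p : ℕ) (A H : Type*) [CommGroup A] [Finite A] [CommGroup H] (r : ℕ)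
    (m : Fin r → ℕ) [∀ i, NeZero (m i)] (e : H ≃* (∀ i, Multiplicative (ZMod (m i)))) :
    surP p A H ≤ ∏ i, tor A (m i) := by
  classical
  have hfin : ∀ i, Finite (PPart p A →* Multiplicative (ZMod (m i))) := fun i => by
    have : Finite (Multiplicative (ZMod (m i))) := inferInstance
    exact Finite.of_injective (fun f => (f : PPart p A → Multiplicative (ZMod (m i))))
      DFunLike.coe_injective
  have h1 : surP p A H ≤ Nat.card (∀ i, (PPart p A →* Multiplicative (ZMod (m i)))) := by
    unfold surP
    have : Finite (∀ i, (PPart p A →* Multiplicative (ZMod (m i)))) := inferInstance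
    refine Nat.card_le_card_of_injective
      (fun f : {f : PPart p A →* H // Function.Surjective f} =>
        (fun i => (Pi.evalMonoidHom _ i).comp (e.toMonoidHom.comp f.1))) ?_
    intro f g h
    apply Subtype.ext
    ext b
    apply e.injective
    funext i
    exact DFunLike.congr_fun (congrFun h i) b
  refine h1.trans ?_
  rw [Nat.card_pi]
  refine Finset.prod_le_prod' fun i _ => ?_
  exact (card_hom_zmod _ (m i)).trans (tor_subgroup _ _)

/-- a product of `r ≥ 1` nonnegative numbers is at most the sum of their `r`-th powers -/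
lemma prod_le_sum_pow (r : ℕ) (hr : 1 ≤ r) (x : Fin r → ℝ) (hx : ∀ i, 0 ≤ x i) :
    ∏ i, x i ≤ ∑ i, x i ^ r := by
  have : Nonempty (Fin r) := ⟨⟨0, hr⟩⟩
  obtain ⟨j, -, hj⟩ := Finset.exists_max_image Finset.univ x Finset.univ_nonempty
  calc ∏ i, x i ≤ ∏ _i : Fin r, x j := Finset.prod_le_prod (fun i _ => hx i) fun i hi => hj i hi
    _ = x j ^ r := by rw [Finset.prod_const, Finset.card_univ, Fintype.card_fin]
    _ ≤ ∑ i, x i ^ r := Finset.single_le_sum (f := fun i => x i ^ r)
        (fun i _ => pow_nonneg (hx i) r) (Finset.mem_univ j)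

/-- Hölder's inequality in the form needed: bounds for the `r`-th moments of the `T i` with scales
`b i` give a bound for the mean of the product. -/
lemma sum_prod_le {α : Type*} (S : Finset α) (r : ℕ) (hr : 1 ≤ r) (T : Fin r → α → ℝ)
    (hT : ∀ i, ∀ D ∈ S, 0 ≤ T i D) (b c : Fin r → ℝ) (hb : ∀ i, 0 < b i) (W : ℝ)
    (h : ∀ i, ∑ D ∈ S, T i D ^ r ≤ c i * W * b i ^ r) :
    ∑ D ∈ S, ∏ i, T i D ≤ (∑ i, c i) * W * ∏ i, b i := by
  have hB : 0 < ∏ i, b i := Finset.prod_pos fun i _ => hb i
  have h1 : ∀ D ∈ S, ∏ i, T i D ≤ (∏ i, b i) * ∑ i, (T i D / b i) ^ r := by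
    intro D hD
    have h2 := prod_le_sum_pow r hr (fun i => T i D / b i) (fun i => div_nonneg (hT i D hD) (hb i).le)
    rw [Finset.prod_div_distrib] at h2
    rw [mul_comm]
    exact (div_le_iff₀ hB).1 h2
  refine (Finset.sum_le_sum h1).trans ?_
  rw [← Finset.mul_sum, Finset.sum_comm, mul_comm]
  refine mul_le_mul_of_nonneg_right ?_ hB.le
  rw [Finset.sum_mul]
  refine Finset.sum_le_sum fun i _ => ?_
  have h3 := h i
  have h4 : ∑ D ∈ S, (T i D / b i) ^ r = (∑ D ∈ S, T i D ^ r) / b i ^ r := by
    rw [Finset.sum_div]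
    exact Finset.sum_congr rfl fun D _ => div_pow _ _ _
  rw [h4, div_le_iff₀ (pow_pos (hb i) r)]
  exact h3

end Pool.Agent.Q100.HM
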