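import Pool.Agent.Y159.QS.Quad
import Pool.Agent.Q100.HM.Basic

set_option autoImplicit false

/-!
# Quadratic subfields of `ℂ` are determined by their discriminants
-/

open NumberField

namespace Pool.Agent.Q100.HM

/-- the discriminant (`0` if the field is not a number field) -/
noncomputable def dsc (K : IntermediateField ℚ ℂ) : ℤ := by
  classical exact if h : NumberField K then @NumberField.discr K _ h else 0

lemma dsc_eq (K : IntermediateField ℚ ℂ) (h : NumberField K) : dsc K = NumberField.discr K := by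
  unfold dsc
  rw [dif_pos h]

lemma eq_adjoin (K : IntermediateField ℚ ℂ) (hK : NumberField K) (h2 : Module.finrank ℚ K = 2) :
    ∃ α : ℂ, K = IntermediateField.adjoin ℚ {α} ∧ α ^ 2 = ((dsc K : ℤ) : ℂ) := by
  obtain ⟨α, h1, h3⟩ := Pool.Agent.Y159.QS.exists_sqrt (K := K) h2
  refine ⟨(α : ℂ), ?_, ?_⟩
  · apply le_antisymm
    · have hall : ∀ x : K, (x : ℂ) ∈ IntermediateField.adjoin ℚ {(α : ℂ)} := by
        intro x
        have h4 : x ∈ (⊤ : IntermediateField ℚ K) := IntermediateField.mem_top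
        rw [← h1] at h4
        refine IntermediateField.adjoin_induction (F := ℚ) (E := K) (s := {α})
          (p := fun (y : K) _ => (y : ℂ) ∈ IntermediateField.adjoin ℚ {(α : ℂ)})
          ?_ ?_ ?_ ?_ ?_ h4
        · intro y hy
          rw [Set.mem_singleton_iff] at hy
          rw [hy]
          exact IntermediateField.mem_adjoin_simple_self ℚ (α : ℂ)
        · intro q
          have h6 : ((algebraMap ℚ K q : K) : ℂ) = algebraMap ℚ ℂ q := by simp
          rw [h6]
          exact IntermediateField.algebraMap_mem _ q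
        · intro y z _ _ hy hz
          exact add_mem hy hz
        · intro y _ hy
          exact inv_mem hy
        · intro y z _ _ hy hz
          exact mul_mem hy hz
      exact fun x hx => hall ⟨x, hx⟩
    · rw [IntermediateField.adjoin_simple_le_iff]
      exact α.2
  · have h5 := congrArg (fun x : K => (x : ℂ)) h3
    rw [dsc_eq K hK]
    simpa using h5

lemma dsc_inj {K L : IntermediateField ℚ ℂ} (hK : NumberField K) (hL : NumberField L)
    (hK2 : Module.finrank ℚ K = 2) (hL2 : Module.finrank ℚ L = 2) (h : dsc K = dsc L) : K = L := by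
  obtain ⟨α, h1, h2⟩ := eq_adjoin K hK hK2
  obtain ⟨β, h3, h4⟩ := eq_adjoin L hL hL2
  have h5 : α ^ 2 = β ^ 2 := by rw [h2, h4, h]
  rcases sq_eq_sq_iff_eq_or_eq_neg.1 h5 with h6 | h6
  · rw [h1, h3, h6]
  · rw [h1, h3, h6]
    apply le_antisymm
    · rw [IntermediateField.adjoin_simple_le_iff]
      exact neg_mem (IntermediateField.mem_adjoin_simple_self ℚ β)
    · rw [IntermediateField.adjoin_simple_le_iff]
      have := neg_mem (IntermediateField.mem_adjoin_simple_self ℚ (-β))
      rwa [neg_neg] at this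

/-- A finite set of quadratic subfields of `ℂ` as a family indexed by the discriminants. -/
lemma toFamily (S : Finset (IntermediateField ℚ ℂ))
    (hS : ∀ K ∈ S, NumberField K ∧ Module.finrank ℚ K = 2) :
    ∃ (L : ℤ → Type) (_ : ∀ D, Field (L D)) (_ : ∀ D, NumberField (L D)),
      (∀ D ∈ S.image dsc, Module.finrank ℚ (L D) = 2 ∧ NumberField.discr (L D) = D) ∧
      ∀ (f : ℕ → ℝ) (l : ℕ), ∑ K ∈ S, f (tor (ClassGroup (𝓞 K)) l) =
        ∑ D ∈ S.image dsc, f (tor (ClassGroup (𝓞 (L D))) l) := by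
  classical
  have h : ∀ D : ℤ, ∃ (L : Type) (_ : Field L) (_ : NumberField L), D ∈ S.image dsc →
      (Module.finrank ℚ L = 2 ∧ NumberField.discr L = D) ∧ ∀ K ∈ S, dsc K = D →
        ∀ l : ℕ, tor (ClassGroup (𝓞 K)) l = tor (ClassGroup (𝓞 L)) l := by
    intro D
    by_cases hD : D ∈ S.image dsc
    · obtain ⟨K, hK, hKD⟩ := Finset.mem_image.1 hD
      obtain ⟨hK1, hK2⟩ := hS K hK
      refine ⟨K, inferInstance, hK1, fun _ => ⟨⟨hK2, ?_⟩, ?_⟩⟩
      · rw [← dsc_eq K hK1, hKD]
      · intro K' hK' hD' l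
        obtain ⟨h3, h4⟩ := hS K' hK'
        have : K' = K := dsc_inj h3 hK1 h4 hK2 (hD'.trans hKD.symm)
        subst this
        rfl
    · exact ⟨ℚ, inferInstance, inferInstance, fun h => absurd h hD⟩
  choose L F N h using h
  refine ⟨L, F, N, fun D hD => (h D hD).1, ?_⟩
  intro f l
  rw [Finset.sum_image]
  · refine Finset.sum_congr rfl fun K hK => ?_
    rw [(h (dsc K) (Finset.mem_image_of_mem _ hK)).2 K hK rfl l]
  · intro K hK K' hK' h0
    obtain ⟨h1, h2⟩ := hS K hK
    obtain ⟨h3, h4⟩ := hS K' hK'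
    exact dsc_inj h1 h3 h2 h4 h0

end Pool.Agent.Q100.HM

namespace Pool.Agent.Q100.HM

/-- Number fields `K t` indexed by a finite set of integers as a family indexed by all integers. -/
lemma toFamily2 (S : Finset ℤ) (K : ℤ → IntermediateField ℚ ℂ)
    (hS : ∀ t ∈ S, NumberField (K t) ∧ Module.finrank ℚ (K t) = 2) :
    ∃ (L : ℤ → Type) (_ : ∀ t, Field (L t)) (_ : ∀ t, NumberField (L t)),
      ∀ t ∈ S, Module.finrank ℚ (L t) = 2 ∧ NumberField.discr (L t) = dsc (K t) ∧
        ∀ l : ℕ, tor (ClassGroup (𝓞 (K t))) l = tor (ClassGroup (𝓞 (L t))) l := by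
  classical
  have h : ∀ t : ℤ, ∃ (L : Type) (_ : Field L) (_ : NumberField L), t ∈ S →
      Module.finrank ℚ L = 2 ∧ NumberField.discr L = dsc (K t) ∧
        ∀ l : ℕ, tor (ClassGroup (𝓞 (K t))) l = tor (ClassGroup (𝓞 L)) l := by
    intro t
    by_cases ht : t ∈ S
    · obtain ⟨h1, h2⟩ := hS t ht
      exact ⟨K t, inferInstance, h1, fun _ => ⟨h2, (dsc_eq (K t) h1).symm, fun _ => rfl⟩⟩
    · exact ⟨ℚ, inferInstance, inferInstance, fun h => absurd h ht⟩
  choose L F N h using h
  exact ⟨L, F, N, h⟩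

end Pool.Agent.Q100.HM
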